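import Pool.Agent.H.MP_353193_lc.K1
import Pool.Agent.H.MP_353193_lc.SM.Inc

/-!
# Cc: few colours: countably many on a copy

Induction on `n`: a function `R omω → om (n + 1)` is bounded on a copy (`bounded_copy`); the bound has at most `aleph n` elements.
-/

set_option autoImplicit false

open Cardinal Ordinal Set

namespace Pool.Agent.H.MP_353193_lc.OC

open SM

private theorem Cc_zero : (Set.Iio (om 0)).Countable := by
  rw [← Cardinal.le_aleph0_iff_set_countable, mk_Iio_om]
  simp

theorem countable_copy (n : ℕ) : ∀ a : Seq → Ordinal.{0}, (∀ y ∈ R omω, a y < om n) →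
    ∃ θ : Seq → Seq, Emb θ univ ∧ ((fun x => a (θ x)) '' R omω).Countable := by
  induction n with
  | zero =>
    intro a ha
    refine ⟨fun x => x, ⟨fun f hf => ⟨hf, trivial⟩, fun f _ g _ h => h⟩, ?_⟩
    refine Cc_zero.mono ?_
    rintro _ ⟨x, hx, rfl⟩
    exact ha x hx
  | succ n ih =>
    intro a ha
    obtain ⟨β, hβ, θ, hθ⟩ := bounded_copy n a ha
    -- an injection of the ordinals up to `β` into `om n`
    have h1 : #(Set.Iic β) ≤ #(Set.Iio (om n)) := by
      rw [mk_Iio_om]
      have h2 := mk_Iic_lt hβ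
      have h3 : Cardinal.aleph (((n + 1 : ℕ) : Ordinal.{1})) =
          Order.succ (Cardinal.aleph (n : Ordinal.{1})) := by
        rw [Cardinal.succ_aleph]
        push_cast
        rfl
      rw [h3] at h2
      exact Order.lt_succ_iff.mp h2
    obtain ⟨j⟩ := h1
    classical
    let J : Ordinal.{0} → Ordinal.{0} := fun γ => if h : γ ≤ β then (j ⟨γ, h⟩).1 else 0
    have hJ : ∀ γ, γ ≤ β → J γ < om n := by
      intro γ hγ
      simp only [J, dif_pos hγ]
      exact (j ⟨γ, hγ⟩).2
    have hJi : Set.InjOn J (Set.Iic β) := by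
      intro γ hγ δ hδ h
      simp only [J, dif_pos (Set.mem_Iic.mp hγ), dif_pos (Set.mem_Iic.mp hδ)] at h
      exact congrArg Subtype.val (j.injective (Subtype.ext h))
    obtain ⟨ψ, hψ, hc⟩ := ih (fun y => J (a (θ y))) (fun y hy => hJ _ (hθ.1 y hy).2)
    refine ⟨fun x => θ (ψ x), (Emb.comp hθ hψ).mono (Set.subset_univ _), ?_⟩
    have hsub : ((fun x => a (θ (ψ x))) '' R omω) ⊆ Set.Iic β := by
      rintro _ ⟨x, hx, rfl⟩
      exact (hθ.1 _ (hψ.1 x hx).1).2
    refine Set.countable_of_injective_of_countable_image (hJi.mono hsub) ?_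
    refine hc.mono ?_
    rintro _ ⟨_, ⟨x, hx, rfl⟩, rfl⟩
    exact ⟨x, hx, rfl⟩

/-- Fewer than `aleph omega` colours. -/
theorem countable_colours {X : Type} (hX : #X < Cardinal.aleph Ordinal.omega0) (c : Seq → X) :
    ∃ θ : Seq → Seq, Emb θ univ ∧ ((fun x => c (θ x)) '' R omω).Countable := by
  have h1 : (#X).ord < omω := by
    unfold omω
    exact Cardinal.ord_lt_ord.mpr hX
  obtain ⟨n, hn⟩ := (lt_omω_iff _).mp h1
  have h2 : #X ≤ #(om n).ToType := by
    rw [Cardinal.mk_toType]
    unfold om at hn ⊢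
    rw [Cardinal.card_ord]
    exact (Cardinal.ord_lt_ord.mp hn).le
  obtain ⟨j⟩ := h2
  obtain ⟨θ, hθ, hc⟩ := countable_copy n
    (fun y => ((Ordinal.ToType.mk (o := om n)).symm (j (c y))).1)
    (fun y _ => ((Ordinal.ToType.mk (o := om n)).symm (j (c y))).2)
  refine ⟨θ, hθ, ?_⟩
  have hinj : Function.Injective
      (fun x : X => ((Ordinal.ToType.mk (o := om n)).symm (j x)).1) := by
    intro x y h
    exact j.injective ((Ordinal.ToType.mk (o := om n)).symm.injective (Subtype.ext h))
  refine Set.countable_of_injective_of_countable_image (hinj.injOn) ?_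
  refine hc.mono ?_
  rintro _ ⟨_, ⟨x, hx, rfl⟩, rfl⟩
  exact ⟨x, hx, rfl⟩

end Pool.Agent.H.MP_353193_lc.OC
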