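import Mathlib

/-!
# Clo: components of graphs with degrees at most an infinite cardinal

* `exists_closed`: `S` = union of the sets `S n`, `S 0 = {x}`, `S (n + 1) = S n ∪ ⋃ y ∈ S n, N y` (`Cardinal.mk_iUnion_le`,
  `Cardinal.mul_eq_self`; or any other proof).
* `exists_rank`: the component of `x` is `K x = {y | Relation.ReflTransGen H x y}` (an equivalence relation, as `H` is symmetric), it is
  contained in the closed set of `exists_closed`, so `#(K x) ≤ lam`, and there is an injection of it into the ordinals `< lam.ord`; choose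
  one for every class (a setoid; `Quotient.out`). So `ρ` is injective on every component, with values `< lam.ord`, and
  `{y | H x y ∧ ρ y < ρ x}` injects into `Set.Iio (ρ x)`, whose cardinality is `(ρ x).card < lam` (`Cardinal.lt_ord`; universe
  levels: `Cardinal.mk_Iio_ordinal`).
-/

set_option autoImplicit false

open Cardinal Ordinal Set

universe u

namespace Pool.Agent.H.MP_353193_lc.OC

theorem exists_closed {X : Type u} (N : X → Set X) {lam : Cardinal.{u}} (hl : ℵ₀ ≤ lam)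
    (hN : ∀ x, #(N x) ≤ lam) (x : X) : ∃ S : Set X, x ∈ S ∧ #S ≤ lam ∧ ∀ y ∈ S, N y ⊆ S := by
  obtain ⟨S, hS0, hS1⟩ : ∃ S : ℕ → Set X, S 0 = {x} ∧ ∀ n, S (n + 1) = ⋃ y ∈ S n, N y :=
    ⟨fun n => Nat.rec {x} (fun _ s => ⋃ y ∈ s, N y) n, rfl, fun _ => rfl⟩
  have hc : ∀ n, #(S n) ≤ lam := by
    intro n
    induction n with
    | zero =>
      rw [hS0, mk_singleton]
      exact one_le_aleph0.trans hl
    | succ n ih =>
      rw [hS1]
      calc #(⋃ y ∈ S n, N y : Set X) ≤ #(S n) * ⨆ y : S n, #(N y.1) := mk_biUnion_le _ _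
        _ ≤ lam * lam := mul_le_mul' ih (ciSup_le' fun y => hN _)
        _ = lam := mul_eq_self hl
  refine ⟨⋃ i : ULift.{u} ℕ, S i.down, mem_iUnion.2 ⟨⟨0⟩, ?_⟩, ?_, ?_⟩
  · show x ∈ S 0
    rw [hS0]
    exact mem_singleton x
  · calc #(⋃ i : ULift.{u} ℕ, S i.down : Set X) ≤ #(ULift.{u} ℕ) * ⨆ i : ULift.{u} ℕ, #(S i.down) :=
          mk_iUnion_le _
      _ ≤ lam * lam := by
          refine mul_le_mul' ?_ (ciSup_le' fun i => hc _)
          rw [mk_uLift, mk_nat, lift_aleph0]
          exact hl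
      _ = lam := mul_eq_self hl
  · intro y hy z hz
    obtain ⟨⟨n⟩, hn⟩ := mem_iUnion.1 hy
    refine mem_iUnion.2 ⟨⟨n + 1⟩, ?_⟩
    show z ∈ S (n + 1)
    rw [hS1]
    exact mem_biUnion hn hz

theorem exists_rank {X : Type u} (H : X → X → Prop) (hs : ∀ x y, H x y → H y x)
    {lam : Cardinal.{u}} (hl : ℵ₀ ≤ lam) (hH : ∀ x, #{y // H x y} ≤ lam) :
    ∃ ρ : X → Ordinal.{u}, (∀ x y, H x y → x ≠ y → ρ x ≠ ρ y) ∧
      ∀ x, #{y // H x y ∧ ρ y < ρ x} < lam := by
  classical
  obtain ⟨K, hK⟩ : ∃ K : X → Set X, ∀ x y, y ∈ K x ↔ Relation.ReflTransGen H x y :=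
    ⟨fun x => {y | Relation.ReflTransGen H x y}, fun _ _ => Iff.rfl⟩
  have hself : ∀ x, x ∈ K x := fun x => (hK x x).2 Relation.ReflTransGen.refl
  have hKeq : ∀ x y, H x y → K x = K y := by
    intro x y hxy
    ext z
    rw [hK, hK]
    exact ⟨fun h => Relation.ReflTransGen.head (hs x y hxy) h,
      fun h => Relation.ReflTransGen.head hxy h⟩
  have hKc : ∀ x, #(K x) ≤ lam := by
    intro x
    obtain ⟨S, hxS, hS, hcl⟩ := exists_closed (fun a => {b | H a b}) hl hH x
    refine (mk_le_mk_of_subset ?_).trans hS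
    intro y hy
    rw [hK] at hy
    induction hy with
    | refl => exact hxS
    | tail _ hbc ih => exact hcl _ ih hbc
  have hF : ∀ T : Set X, ∃ F : X → Ordinal.{u}, #T ≤ lam →
      InjOn F T ∧ ∀ y ∈ T, F y < lam.ord := by
    intro T
    by_cases hT : #T ≤ lam
    · have h1 : lift.{u + 1} #T ≤ lift.{u} #(Iio lam.ord) := by
        rw [Cardinal.mk_Iio_ordinal, card_ord, Cardinal.lift_lift, Cardinal.lift_le]
        exact hT
      obtain ⟨e⟩ := lift_mk_le'.1 h1
      refine ⟨fun y => if h : y ∈ T then (e ⟨y, h⟩ : Ordinal.{u}) else 0, fun _ => ⟨?_, ?_⟩⟩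
      · intro y hy z hz hyz
        simp only [dif_pos hy, dif_pos hz] at hyz
        exact congrArg Subtype.val (e.injective (Subtype.ext hyz))
      · intro y hy
        simp only [dif_pos hy]
        exact (e ⟨y, hy⟩).2
    · exact ⟨fun _ => 0, fun h => absurd h hT⟩
  choose F hF using hF
  refine ⟨fun x => F (K x) x, ?_, ?_⟩
  · intro x y hxy hne h
    have h1 := hKeq x y hxy
    have h2 : y ∈ K x := by
      rw [h1]
      exact hself y
    refine hne ((hF (K x) (hKc x)).1 (hself x) h2 ?_)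
    have h3 : F (K x) x = F (K y) y := h
    rw [h3, h1]
  · intro x
    have h4 : ∀ y, H x y → y ∈ K x ∧ F (K y) y = F (K x) y := by
      intro y hxy
      have h1 := hKeq x y hxy
      refine ⟨?_, by rw [h1]⟩
      rw [h1]
      exact hself y
    have h5 : F (K x) x < lam.ord := (hF (K x) (hKc x)).2 x (hself x)
    have h6 : lift.{u + 1} #{y // H x y ∧ F (K y) y < F (K x) x} ≤
        lift.{u} #(Iio (F (K x) x)) := by
      refine lift_mk_le'.2 ⟨⟨fun y => ⟨F (K x) y.1, ?_⟩, ?_⟩⟩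
      · rw [mem_Iio, ← (h4 y.1 y.2.1).2]
        exact y.2.2
      · intro y z hyz
        refine Subtype.ext ((hF (K x) (hKc x)).1 (h4 y.1 y.2.1).1 (h4 z.1 z.2.1).1 ?_)
        exact congrArg Subtype.val hyz
    rw [Cardinal.mk_Iio_ordinal, Cardinal.lift_lift, Cardinal.lift_le] at h6
    exact h6.trans_lt (lt_ord.1 h5)

end Pool.Agent.H.MP_353193_lc.OC
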