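import Pool.Agent.H.MP_353193_lc.OC.Df

/-!
# CodA: the code is in R

* `cd_mem`: `x ν = true`: then `ν < ln x` (`ln x` is a member of the set: `csInf_mem`, the set is nonempty), so `cd x y (2 * ν + 1) = true`.
  Bound: the supports of `x`, `y` are bounded by `β, γ < omω`, `ln x ≤ β`, so the support of `cd x y` is bounded by `2 * (β + γ) + 2 < omω`
  (`Ordinal.principal_add_ord`, `Ordinal.principal_mul_ord`, `Cardinal.aleph0_le_aleph`); `α = 2 * (α / 2) + α % 2`, `α % 2 < 2`;
  `α / 2 - ln x < γ` gives `α / 2 < ln x + γ ≤ β + γ`.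
* `aleph0_lt_mk_R`: the sequences with one digit 1 at `ν < omω` (`fun μ => decide (μ = ν)`) are in `R omω`; the cardinality of
  `Set.Iio omω` is `lift (aleph omega0) > ℵ₀`.
-/

set_option autoImplicit false

open Cardinal Ordinal Set

namespace Pool.Agent.H.MP_353193_lc.OC

theorem CodA_two_ne_zero : (2 : Ordinal.{0}) ≠ 0 := two_ne_zero

theorem CodA_one_lt_two : (1 : Ordinal.{0}) < 2 := one_lt_two

/-- division with remainder -/
theorem two_mul_div (q : Ordinal.{0}) : (2 * q) / 2 = q ∧ (2 * q) % 2 = 0 := by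
  exact ⟨Ordinal.mul_div_cancel q CodA_two_ne_zero, Ordinal.mul_mod 2 q⟩

theorem two_mul_add_div (q : Ordinal.{0}) : (2 * q + 1) / 2 = q ∧ (2 * q + 1) % 2 = 1 := by
  refine ⟨?_, ?_⟩
  · rw [Ordinal.mul_add_div q CodA_two_ne_zero 1, Ordinal.div_eq_zero_of_lt CodA_one_lt_two, add_zero]
  · rw [Ordinal.mul_add_mod_self, Ordinal.mod_eq_of_lt CodA_one_lt_two]

theorem lt_ln {x : Seq} (hx : x ∈ R omω) {ν : Ordinal.{0}} (h : x ν = true) : ν < ln x := by
  obtain ⟨-, β, -, hβ⟩ := hx
  have hne : ({β | ∀ ν, x ν = true → ν < β} : Set Ordinal.{0}).Nonempty := ⟨β, hβ⟩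
  have hm : ln x ∈ ({β | ∀ ν, x ν = true → ν < β} : Set Ordinal.{0}) := csInf_mem hne
  exact hm ν h

theorem CodA_aleph0_le : ℵ₀ ≤ (aleph (omega0 : Ordinal.{0})) := aleph0_le_aleph _

theorem cd_mem {x y : Seq} (hx : x ∈ R omω) (hy : y ∈ R omω) : cd x y ∈ R omω := by
  have hx' := hx
  obtain ⟨⟨ν, hν⟩, β, hβ, hxβ⟩ := hx
  obtain ⟨-, γ, hγ, hyγ⟩ := hy
  have hlt : ν < ln x := lt_ln hx' hν
  have hle : ln x ≤ β := csInf_le' hxβ
  have h2 : (2 : Ordinal.{0}) < omω := by
    have h1 : (2 : Ordinal.{0}) < omega0 := by exact_mod_cast Ordinal.natCast_lt_omega0 2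
    refine lt_of_lt_of_le h1 ?_
    have h3 := Cardinal.ord_le_ord.mpr CodA_aleph0_le
    rw [Cardinal.ord_aleph0] at h3
    exact h3
  have hadd : ∀ a b : Ordinal.{0}, a < omω → b < omω → a + b < omω := fun a b ha hb =>
    Ordinal.isPrincipal_add_ord CodA_aleph0_le ha hb
  have hmul : ∀ a b : Ordinal.{0}, a < omω → b < omω → a * b < omω := fun a b ha hb =>
    Ordinal.isPrincipal_mul_ord CodA_aleph0_le ha hb
  refine ⟨⟨2 * ν + 1, ?_⟩, 2 * (β + γ) + 2, hadd _ _ (hmul _ _ h2 (hadd _ _ hβ hγ)) h2, ?_⟩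
  · obtain ⟨e1, e2⟩ := two_mul_add_div ν
    unfold cd
    rw [e1, e2, if_neg one_ne_zero, if_pos hlt]
    exact hν
  · intro α hα
    have key : α / 2 < β + γ := by
      unfold cd at hα
      by_cases h0 : α % 2 = 0
      · rw [if_pos h0] at hα
        have h1 : α / 2 < ln x := of_decide_eq_true hα
        exact lt_of_lt_of_le h1 (hle.trans (le_add_of_nonneg_right (zero_le)))
      · rw [if_neg h0] at hα
        by_cases h1 : α / 2 < ln x
        · exact lt_of_lt_of_le h1 (hle.trans (le_add_of_nonneg_right (zero_le)))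
        · rw [if_neg h1] at hα
          have h4 := hyγ _ hα
          have h5 : ln x + (α / 2 - ln x) = α / 2 := Ordinal.add_sub_cancel_of_le (not_lt.mp h1)
          rw [← h5]
          calc ln x + (α / 2 - ln x) < ln x + γ := by
                exact (add_lt_add_iff_left (ln x)).mpr h4
            _ ≤ β + γ := by
                exact add_le_add_left hle γ
    have h6 : 2 * (α / 2) + α % 2 = α := Ordinal.div_add_mod α 2
    rw [← h6]
    have h7 : α % 2 < 2 := Ordinal.mod_lt α CodA_two_ne_zero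
    have h8 : 2 * (α / 2) ≤ 2 * (β + γ) := mul_le_mul_right key.le 2
    exact lt_of_lt_of_le ((add_lt_add_iff_left _).mpr h7) (add_le_add_left h8 2)

theorem aleph0_lt_mk_R : ℵ₀ < #(R omω) := by
  classical
  have hmem : ∀ ν : Set.Iio omω, (fun μ => decide (μ = ν.1) : Seq) ∈ R omω := by
    intro ν
    have hlim : Order.IsSuccLimit omω := Cardinal.isSuccLimit_ord CodA_aleph0_le
    refine ⟨⟨ν.1, by simp⟩, Order.succ ν.1, hlim.succ_lt ν.2, ?_⟩
    intro μ hμ
    have h1 : μ = ν.1 := of_decide_eq_true hμ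
    rw [h1]
    exact Order.lt_succ _
  let F : Set.Iio omω → R omω := fun ν => ⟨fun μ => decide (μ = ν.1), hmem ν⟩
  have hinj : Function.Injective F := by
    intro a b hab
    have h1 : (fun μ => decide (μ = a.1) : Seq) = fun μ => decide (μ = b.1) := congrArg Subtype.val hab
    have h2 := congrFun h1 a.1
    simp only [decide_true] at h2
    have h3 : a.1 = b.1 := of_decide_eq_true h2.symm
    exact Subtype.ext h3
  have h1 := Cardinal.mk_le_of_injective hinj
  refine lt_of_lt_of_le ?_ h1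
  rw [Cardinal.mk_Iio_ordinal]
  have h2 : (omω : Ordinal.{0}).card = aleph omega0 := Cardinal.card_ord _
  rw [h2]
  have h3 : ℵ₀ < aleph (omega0 : Ordinal.{0}) := by
    rw [← Cardinal.aleph_zero]
    exact Cardinal.aleph_lt_aleph.mpr Ordinal.omega0_pos
  exact Cardinal.aleph0_lt_lift.mpr h3

end Pool.Agent.H.MP_353193_lc.OC
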