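import Pool.Agent.H.MP_353193_lc.OC.CodA

/-!
# CodB: the code respects the order

* `cd_lt1`: `μ` the first difference of `x`, `x'`, `x μ = false`, `x' μ = true`, so `μ < ln x'` (`lt_ln`). If `μ < ln x`: the first
  difference of the codes is `2 * μ + 1` (for `α < 2 * μ + 1` one has `α / 2 ≤ μ`, and `α / 2 < μ` if `α % 2 = 1`). If `ln x ≤ μ`: the
  first difference is at `2 * ln x`: `decide (ln x < ln x) = false`, `decide (ln x < ln x') = true`; for `α < 2 * ln x`: `α / 2 < ln x ≤ μ`.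
* `cd_lt2`: `μ` the first difference of `y`, `y'`; the first difference of the codes is at `2 * (ln x + μ) + 1`; for a smaller odd
  `α` with `ln x ≤ α / 2`: `α / 2 < ln x + μ`, so `α / 2 - ln x < μ`.
-/

set_option autoImplicit false

open Cardinal Ordinal Set

namespace Pool.Agent.H.MP_353193_lc.OC

private theorem CodB_lt {α q : Ordinal.{0}} (h : α < 2 * q) : α / 2 < q :=
  (Ordinal.lt_mul_iff_div_lt two_ne_zero).1 h

private theorem CodB_le {α q : Ordinal.{0}} (h : α < 2 * q + 1) : α / 2 ≤ q := by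
  have h1 : α / 2 < Order.succ q := by
    refine CodB_lt (h.trans_le ?_)
    rw [Ordinal.mul_succ]
    gcongr
    exact one_le_two
  exact Order.lt_succ_iff.1 h1

private theorem CodB_odd {α q : Ordinal.{0}} (h : α < 2 * q + 1) (h2 : α % 2 ≠ 0) :
    α / 2 < q := by
  refine lt_of_le_of_ne (CodB_le h) fun h3 => ?_
  have h4 := Ordinal.div_add_mod α 2
  rw [h3] at h4
  have h5 : 1 ≤ α % 2 := Ordinal.one_le_iff_ne_zero.2 h2
  have h6 : 2 * q + 1 ≤ 2 * q + α % 2 := by gcongr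
  rw [h4] at h6
  exact absurd h (not_lt.2 h6)

private theorem CodB_even (x y : Seq) {α : Ordinal.{0}} (h : α % 2 = 0) :
    cd x y α = decide (α / 2 < ln x) := by
  unfold cd
  rw [if_pos h]

private theorem CodB_odd1 (x y : Seq) {α : Ordinal.{0}} (h : α % 2 ≠ 0) (h2 : α / 2 < ln x) :
    cd x y α = x (α / 2) := by
  unfold cd
  rw [if_neg h, if_pos h2]

private theorem CodB_odd2 (x y : Seq) {α : Ordinal.{0}} (h : α % 2 ≠ 0)
    (h2 : ¬ α / 2 < ln x) : cd x y α = y (α / 2 - ln x) := by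
  unfold cd
  rw [if_neg h, if_neg h2]

theorem cd_lt1 {x x' y y' : Seq} (hx' : x' ∈ R omω) (h : lexlt x x') :
    lexlt (cd x y) (cd x' y') := by
  obtain ⟨μ, h1, h2, h3⟩ := h
  have h4 := lt_ln hx' h3
  rcases lt_or_ge μ (ln x) with h5 | h5
  · obtain ⟨q1, q2⟩ := two_mul_add_div μ
    have q3 : (2 * μ + 1) % 2 ≠ 0 := by
      rw [q2]
      exact one_ne_zero
    refine ⟨2 * μ + 1, fun α hα => ?_, ?_, ?_⟩
    · by_cases h0 : α % 2 = 0
      · have h6 := CodB_le hα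
        rw [CodB_even _ _ h0, CodB_even _ _ h0, decide_eq_true (h6.trans_lt h5),
          decide_eq_true (h6.trans_lt h4)]
      · have h6 := CodB_odd hα h0
        rw [CodB_odd1 _ _ h0 (h6.trans h5), CodB_odd1 _ _ h0 (h6.trans h4), h1 _ h6]
    · rw [CodB_odd1 _ _ q3 (by rw [q1]; exact h5), q1, h2]
    · rw [CodB_odd1 _ _ q3 (by rw [q1]; exact h4), q1, h3]
  · obtain ⟨q1, q2⟩ := two_mul_div (ln x)
    refine ⟨2 * ln x, fun α hα => ?_, ?_, ?_⟩
    · have h6 := CodB_lt hα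
      have h7 : α / 2 < μ := h6.trans_le h5
      by_cases h0 : α % 2 = 0
      · rw [CodB_even _ _ h0, CodB_even _ _ h0, decide_eq_true h6,
          decide_eq_true (h7.trans h4)]
      · rw [CodB_odd1 _ _ h0 h6, CodB_odd1 _ _ h0 (h7.trans h4), h1 _ h7]
    · rw [CodB_even _ _ q2, q1]
      exact decide_eq_false (lt_irrefl _)
    · rw [CodB_even _ _ q2, q1]
      exact decide_eq_true (h5.trans_lt h4)

theorem cd_lt2 {x y y' : Seq} (h : lexlt y y') : lexlt (cd x y) (cd x y') := by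
  obtain ⟨μ, h1, h2, h3⟩ := h
  obtain ⟨q1, q2⟩ := two_mul_add_div (ln x + μ)
  have q3 : (2 * (ln x + μ) + 1) % 2 ≠ 0 := by
    rw [q2]
    exact one_ne_zero
  have q4 : ¬ (2 * (ln x + μ) + 1) / 2 < ln x := by
    rw [q1]
    exact not_lt.2 le_self_add
  have q5 : (2 * (ln x + μ) + 1) / 2 - ln x = μ := by
    rw [q1]
    exact Ordinal.add_sub_cancel _ _
  refine ⟨2 * (ln x + μ) + 1, fun α hα => ?_, ?_, ?_⟩
  · by_cases h0 : α % 2 = 0
    · rw [CodB_even _ _ h0, CodB_even _ _ h0]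
    · by_cases h6 : α / 2 < ln x
      · rw [CodB_odd1 _ _ h0 h6, CodB_odd1 _ _ h0 h6]
      · rw [CodB_odd2 _ _ h0 h6, CodB_odd2 _ _ h0 h6]
        exact h1 _ ((Ordinal.sub_lt_of_le (not_lt.1 h6)).2 (CodB_odd hα h0))
  · rw [CodB_odd2 _ _ q3 q4, q5, h2]
  · rw [CodB_odd2 _ _ q3 q4, q5, h3]

end Pool.Agent.H.MP_353193_lc.OC
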