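import Pool.Agent.H.MP_353193_lc.Defs

/-!
# MP_353193_lc, OC: neighbours of the own colour (definitions)

Theorem: `G` a graph on `R omω`, `c` a colouring with finitely many colours, `μ < #(R omω)`. If the set
of the vertices with more than `μ` neighbours of their own colour contains no copy of `R omω`, then `G`
has an independent copy.

PROOF. `cd x y` is a code of the lexicographic product: `cd x y (2 ν)` tells if `ν < ln x`, and
`cd x y (2 ν + 1)` is `x ν` for `ν < ln x` and `y (ν - ln x)` otherwise (`CodA`, `CodB`). `Ind`: if
`R omω` is a finite union then one part contains a copy (a fibre of `cd` or a transversal of the fibres).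
So there is a copy in which all degrees are `≤ μ` (`Mn`). `Trv`: disjoint sets of size `μ⁺` have an
independent transversal, if all degrees are `≤ μ`; apply it to the fibres.
-/

set_option autoImplicit false

open Cardinal Ordinal Set

namespace Pool.Agent.H.MP_353193_lc.OC

/-- The length: the least strict upper bound of the support. -/
noncomputable def ln (x : Seq) : Ordinal.{0} := sInf {β | ∀ ν, x ν = true → ν < β}

open Classical in
/-- The code. -/
noncomputable def cd (x y : Seq) : Seq := fun α =>
  if α % 2 = 0 then decide (α / 2 < ln x) else
    if α / 2 < ln x then x (α / 2) else y (α / 2 - ln x)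

/-- The set `D` contains a copy of `R omω`. -/
def Cpy (D : Set Seq) : Prop :=
  ∃ φ : Seq → Seq, (∀ f ∈ R omω, φ f ∈ D) ∧
    ∀ f ∈ R omω, ∀ g ∈ R omω, lexlt f g → lexlt (φ f) (φ g)

end Pool.Agent.H.MP_353193_lc.OC
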