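import Pool.Agent.H.MP_353193_lc.OC.CodB

/-!
# Ind: finite unions

* `ind2`: if for some `x ∈ R omω` all `cd x y`, `y ∈ R omω`, are in `A`: the copy is `cd x` (`cd_mem`, `cd_lt2`). Otherwise choose for every
  `x ∈ R omω` a `y x ∈ R omω` with `cd x (y x) ∉ A`, so it is in `B`; the copy is `x ↦ cd x (y x)` (`cd_lt1`).
* `ind_fin`: induction on `r` (for all `D`, `c`); for `r + 1`: `ind2` for `A = {x | c (φ x) = last}` and its complement, `φ` the copy in `D`,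
  composed with `φ`.
-/

set_option autoImplicit false

open Cardinal Ordinal Set

namespace Pool.Agent.H.MP_353193_lc.OC

theorem ind2 {A B : Set Seq} (h : R omω ⊆ A ∪ B) : Cpy (A ∩ R omω) ∨ Cpy (B ∩ R omω) := by
  by_cases h1 : ∃ x ∈ R omω, ∀ y ∈ R omω, cd x y ∈ A
  · obtain ⟨x, hx, hxA⟩ := h1
    exact Or.inl ⟨cd x, fun f hf => ⟨hxA f hf, cd_mem hx hf⟩, fun f _ g _ hfg => cd_lt2 hfg⟩
  · have h2 : ∀ x, ∃ y, x ∈ R omω → y ∈ R omω ∧ cd x y ∉ A := by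
      intro x
      by_cases hx : x ∈ R omω
      · by_contra hcon
        refine h1 ⟨x, hx, fun y hy => ?_⟩
        by_contra hyA
        exact hcon ⟨y, fun _ => ⟨hy, hyA⟩⟩
      · exact ⟨x, fun hx' => absurd hx' hx⟩
    choose w hw using h2
    refine Or.inr ⟨fun x => cd x (w x), fun f hf => ?_, fun f _ g hg hfg => cd_lt1 hg hfg⟩
    have h3 := cd_mem hf (hw f hf).1
    exact ⟨(h h3).resolve_left (hw f hf).2, h3⟩

/-- `ind_fin` for colourings with values in the integers `< r`. -/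
theorem Ind_nat (r : ℕ) (c : Seq → ℕ) : ∀ {D : Set Seq}, Cpy D → (∀ x ∈ D, c x < r) →
    ∃ i < r, Cpy {x | x ∈ D ∧ c x = i} := by
  induction r with
  | zero =>
    intro D hD hc
    obtain ⟨φ, hφ, -⟩ := hD
    have h1 : #(R omω) ≠ 0 := (lt_trans aleph0_pos aleph0_lt_mk_R).ne'
    obtain ⟨⟨f, hf⟩⟩ := Cardinal.mk_ne_zero_iff.1 h1
    exact absurd (hc _ (hφ f hf)) (Nat.not_lt_zero _)
  | succ r ih =>
    intro D hD hc
    obtain ⟨φ, hφ, hφ2⟩ := hD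
    have h1 : R omω ⊆ {x | c (φ x) = r} ∪ {x | c (φ x) ≠ r} := fun x _ => em (c (φ x) = r)
    rcases ind2 h1 with ⟨ψ, hψ, hψ2⟩ | ⟨ψ, hψ, hψ2⟩
    · refine ⟨r, Nat.lt_succ_self r, fun x => φ (ψ x),
        fun f hf => ⟨hφ _ (hψ f hf).2, (hψ f hf).1⟩, fun f hf g hg hfg => ?_⟩
      exact hφ2 _ (hψ f hf).2 _ (hψ g hg).2 (hψ2 f hf g hg hfg)
    · have h2 : Cpy {x | x ∈ D ∧ c x ≠ r} :=
        ⟨fun x => φ (ψ x), fun f hf => ⟨hφ _ (hψ f hf).2, (hψ f hf).1⟩, fun f hf g hg hfg =>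
          hφ2 _ (hψ f hf).2 _ (hψ g hg).2 (hψ2 f hf g hg hfg)⟩
      obtain ⟨i, hi, χ, hχ, hχ2⟩ := ih h2
        fun x hx => lt_of_le_of_ne (Nat.lt_succ_iff.1 (hc x hx.1)) hx.2
      exact ⟨i, Nat.lt_succ_of_lt hi, χ, fun f hf => ⟨(hχ f hf).1.1, (hχ f hf).2⟩, hχ2⟩

theorem ind_fin (r : ℕ) (c : Seq → Fin r) {D : Set Seq} (h : Cpy D) :
    ∃ i : Fin r, Cpy {x | x ∈ D ∧ c x = i} := by
  obtain ⟨i, hi, φ, hφ, hφ2⟩ := Ind_nat r (fun x => (c x : ℕ)) h fun x _ => (c x).isLt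
  exact ⟨⟨i, hi⟩, φ, fun f hf => ⟨(hφ f hf).1, Fin.ext (hφ f hf).2⟩, hφ2⟩

end Pool.Agent.H.MP_353193_lc.OC
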