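import Pool.Agent.H.MP_353193_lc.OC.Clo

/-!
# Trv: independent transversals

`H x x'`: `x ≠ x'` and there is an edge between `Y x` and `Y x'`. `x' ↦ (v, w)` (`v ∈ Y x`, `w ∈ Y x'` adjacent) is injective
(disjointness), so the degrees of `H` are `≤ succ mu * mu = succ mu`. `exists_rank` with `lam = succ mu` gives `ρ`. Recursion on `ρ`
(`WellFounded.fix` for `InvImage`): `p x ∈ Y x` is not adjacent to the `p x'`, `H x x'`, `ρ x' < ρ x`: these have together at most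
`mu * mu = mu` neighbours (`Cardinal.mk_iUnion_le_sum_mk`, `Cardinal.mk_biUnion_le`), and `#(Y x) = succ mu`.
For `x ≠ x'`: if `H x x'` fails, no edge; otherwise `ρ x ≠ ρ x'`.
-/

set_option autoImplicit false

open Cardinal Ordinal Set

universe u

namespace Pool.Agent.H.MP_353193_lc.OC

theorem Trv_sig {ι : Type u} {f : ι → Type u} {a : Cardinal.{u}} (h : ∀ i, #(f i) ≤ a) :
    #(Σ i, f i) ≤ #ι * a := by
  rw [Cardinal.mk_sigma, ← Cardinal.sum_const']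
  exact Cardinal.sum_le_sum _ _ h

theorem transversal {X V : Type u} (Adj : V → V → Prop) (hs : ∀ v w, Adj v w → Adj w v)
    {mu : Cardinal.{u}} (hmu : ℵ₀ ≤ mu) (hdeg : ∀ v, #{w // Adj v w} ≤ mu) (Y : X → Set V)
    (hd : ∀ x x' v, v ∈ Y x → v ∈ Y x' → x = x') (hY : ∀ x, #(Y x) = Order.succ mu) :
    ∃ p : X → V, (∀ x, p x ∈ Y x) ∧ ∀ x x', x ≠ x' → ¬ Adj (p x) (p x') := by
  classical
  have hmu0 : mu ≠ 0 := (lt_of_lt_of_le Cardinal.aleph0_pos hmu).ne'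
  have hlam : ℵ₀ ≤ Order.succ mu := hmu.trans (Order.le_succ mu)
  obtain ⟨H, hH⟩ : ∃ H : X → X → Prop, H = fun x x' => x ≠ x' ∧ ∃ v ∈ Y x, ∃ w ∈ Y x', Adj v w :=
    ⟨_, rfl⟩
  have hHs : ∀ x y, H x y → H y x := by
    intro x y h
    rw [hH] at h ⊢
    obtain ⟨h1, v, hv, w, hw, h2⟩ := h
    exact ⟨h1.symm, w, hw, v, hv, hs _ _ h2⟩
  have hHc : ∀ x, #{y // H x y} ≤ Order.succ mu := by
    intro x
    have h1 : ∀ y : {y // H x y}, ∃ q : Σ v : Y x, {w // Adj (v : V) w}, (q.2 : V) ∈ Y y.1 := by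
      rintro ⟨y, hy⟩
      rw [hH] at hy
      obtain ⟨-, v, hv, w, hw, h2⟩ := hy
      exact ⟨⟨⟨v, hv⟩, ⟨w, h2⟩⟩, hw⟩
    choose q hq using h1
    have h2 : #{y // H x y} ≤ #(Σ v : Y x, {w // Adj (v : V) w}) := by
      refine Cardinal.mk_le_of_injective (f := q) fun y y' h => Subtype.ext ?_
      have h3 := hq y
      have h4 := hq y'
      rw [← h] at h4
      exact hd _ _ _ h3 h4
    refine h2.trans ((Trv_sig fun v => hdeg _).trans ?_)
    rw [hY x, Cardinal.mul_eq_left hlam (Order.le_succ mu) hmu0]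
  obtain ⟨ρ, hρ1, hρ2⟩ := exists_rank H hHs hlam hHc
  have key : ∀ (x : X) (ih : ∀ y, ρ y < ρ x → V), ∃ v ∈ Y x,
      ∀ (y : X) (hy : ρ y < ρ x), H x y → ¬ Adj (ih y hy) v := by
    intro x ih
    by_contra hcon
    push Not at hcon
    have h1 : ∀ v : Y x, ∃ q : Σ y : {y // H x y ∧ ρ y < ρ x}, {w // Adj (ih y.1 y.2.2) w},
        (q.2 : V) = v := by
      rintro ⟨v, hv⟩
      obtain ⟨y, hy, h2, h3⟩ := hcon v hv
      exact ⟨⟨⟨y, h2, hy⟩, ⟨v, h3⟩⟩, rfl⟩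
    choose q hq using h1
    have h2 : #(Y x) ≤
        #(Σ y : {y // H x y ∧ ρ y < ρ x}, {w // Adj (ih y.1 y.2.2) w}) := by
      refine Cardinal.mk_le_of_injective (f := q) fun v v' h => Subtype.ext ?_
      rw [← hq v, ← hq v', h]
    have h3 : #{y // H x y ∧ ρ y < ρ x} ≤ mu := Order.lt_succ_iff.1 (hρ2 x)
    have h4 : #(Y x) ≤ mu := by
      refine h2.trans ((Trv_sig fun v => hdeg _).trans ?_)
      calc #{y // H x y ∧ ρ y < ρ x} * mu ≤ mu * mu := mul_le_mul_left h3 mu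
        _ = mu := Cardinal.mul_eq_self hmu
    rw [hY x] at h4
    exact absurd h4 (not_le.2 (Order.lt_succ mu))
  obtain ⟨p, hp⟩ : ∃ p : X → V, ∀ x, p x = (key x fun y _ => p y).choose := by
    have hwf : WellFounded (InvImage (· < ·) ρ) := InvImage.wf ρ wellFounded_lt
    exact ⟨hwf.fix fun x ih => (key x ih).choose, fun x => hwf.fix_eq _ x⟩
  have hp1 : ∀ x, p x ∈ Y x := by
    intro x
    rw [hp x]
    exact (key x fun y _ => p y).choose_spec.1
  have hp2 : ∀ x y, ρ y < ρ x → H x y → ¬ Adj (p y) (p x) := by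
    intro x y hy hxy
    rw [hp x]
    exact (key x fun y _ => p y).choose_spec.2 y hy hxy
  refine ⟨p, hp1, fun x x' hxx h => ?_⟩
  have h1 : H x x' := by
    rw [hH]
    exact ⟨hxx, p x, hp1 x, p x', hp1 x', h⟩
  rcases lt_or_gt_of_ne (hρ1 x x' h1 hxx) with h2 | h2
  · exact hp2 x' x h2 (hHs _ _ h1) h
  · exact hp2 x x' h2 h1 (hs _ _ h)

end Pool.Agent.H.MP_353193_lc.OC
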