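import Pool.Agent.H.MP_353193_lc.B2
import Pool.Agent.H.MP_353193_lc.OC.Ind
import Pool.Agent.H.MP_353193_lc.OC.Trv

/-!
# Mn: the theorem
-/

set_option autoImplicit false

open Cardinal Ordinal Set

namespace Pool.Agent.H.MP_353193_lc.OC

private theorem Mn_ne {x y : Seq} (h : lexlt x y) : x ≠ y := by
  rintro rfl
  exact lexlt_asymm h h

private theorem Mn_inj {x y x' y' : Seq} (hx : x ∈ R omω) (hx' : x' ∈ R omω)
    (h : cd x y = cd x' y') : x = x' := by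
  by_contra hne
  rcases lexlt_total hne with h1 | h1
  · exact Mn_ne (cd_lt1 (y := y) (y' := y') hx' h1) h
  · exact Mn_ne (cd_lt1 (y := y') (y' := y) hx h1) h.symm

private theorem Mn_inj2 {x y y' : Seq} (h : cd x y = cd x y') : y = y' := by
  by_contra hne
  rcases lexlt_total hne with h1 | h1
  · exact Mn_ne (cd_lt2 (x := x) h1) h
  · exact Mn_ne (cd_lt2 (x := x) h1) h.symm

theorem main_R (G : SimpleGraph Seq) {μ : Cardinal.{1}} (hμ : μ < #(R omω))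
    (hdeg : ∀ a ∈ R omω, #{b // b ∈ R omω ∧ G.Adj a b} ≤ μ) :
    ∃ φ : Seq → Seq, (∀ f ∈ R omω, φ f ∈ R omω) ∧
      (∀ f ∈ R omω, ∀ g ∈ R omω, lexlt f g → lexlt (φ f) (φ g)) ∧
      ∀ f ∈ R omω, ∀ g ∈ R omω, ¬ G.Adj (φ f) (φ g) := by
  classical
  set mu : Cardinal.{1} := max μ ℵ₀ with hmu
  have hmu0 : ℵ₀ ≤ mu := le_max_right _ _
  have hmuR : mu < #(R omω) := max_lt hμ aleph0_lt_mk_R
  -- the relation
  let Adj' : Seq → Seq → Prop := fun v w => v ∈ R omω ∧ w ∈ R omω ∧ G.Adj v w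
  have hdeg' : ∀ v : Seq, #{w // Adj' v w} ≤ mu := by
    intro v
    by_cases hv : v ∈ R omω
    · refine le_trans ?_ ((hdeg v hv).trans (le_max_left _ _))
      refine Cardinal.mk_le_of_injective (f := fun w : {w // Adj' v w} =>
        (⟨w.1, w.2.2.1, w.2.2.2⟩ : {b // b ∈ R omω ∧ G.Adj v b})) ?_
      intro w w' hw
      exact Subtype.ext (congrArg (fun t : {b // b ∈ R omω ∧ G.Adj v b} => t.1) hw)
    · have he : IsEmpty {w // Adj' v w} := ⟨fun w => hv w.2.1⟩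
      rw [Cardinal.mk_eq_zero]
      exact zero_le
  -- the fibres
  have hF : ∀ x : R omω, ∃ Y ⊆ {v : Seq | ∃ y ∈ R omω, v = cd x.1 y}, #Y = Order.succ mu := by
    intro x
    rw [← Cardinal.le_mk_iff_exists_subset]
    refine (Order.succ_le_of_lt hmuR).trans ?_
    refine Cardinal.mk_le_of_injective (f := fun y : R omω =>
      (⟨cd x.1 y.1, y.1, y.2, rfl⟩ : {v : Seq | ∃ y ∈ R omω, v = cd x.1 y})) ?_
    intro y y' hy
    exact Subtype.ext (Mn_inj2 (congrArg (fun t : {v : Seq | ∃ y ∈ R omω, v = cd x.1 y} => t.1) hy))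
  choose Y hYF hYc using hF
  have hd : ∀ (x x' : R omω) (v : Seq), v ∈ Y x → v ∈ Y x' → x = x' := by
    intro x x' v hv hv'
    obtain ⟨y, -, h1⟩ := hYF x hv
    obtain ⟨y', -, h2⟩ := hYF x' hv'
    exact Subtype.ext (Mn_inj x.2 x'.2 (h1.symm.trans h2))
  obtain ⟨p, hp, hind⟩ := transversal Adj' (fun v w h => ⟨h.2.1, h.1, h.2.2.symm⟩) hmu0 hdeg' Y hd hYc
  have hpc : ∀ x : R omω, ∃ y ∈ R omω, p x = cd x.1 y := fun x => hYF x (hp x)
  have hpR : ∀ x : R omω, p x ∈ R omω := by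
    intro x
    obtain ⟨y, hy, h1⟩ := hpc x
    rw [h1]
    exact cd_mem x.2 hy
  refine ⟨fun f => if h : f ∈ R omω then p ⟨f, h⟩ else f, ?_, ?_, ?_⟩
  · intro f hf
    simp only [dif_pos hf]
    exact hpR _
  · intro f hf g hg hfg
    simp only [dif_pos hf, dif_pos hg]
    obtain ⟨y, -, h1⟩ := hpc ⟨f, hf⟩
    obtain ⟨y', -, h2⟩ := hpc ⟨g, hg⟩
    rw [h1, h2]
    exact cd_lt1 hg hfg
  · intro f hf g hg
    simp only [dif_pos hf, dif_pos hg]
    intro hadj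
    by_cases hfg : f = g
    · subst hfg
      exact G.loopless.irrefl _ hadj
    · exact hind ⟨f, hf⟩ ⟨g, hg⟩ (fun h => hfg (congrArg Subtype.val h)) ⟨hpR _, hpR _, hadj⟩

theorem main_col (G : SimpleGraph Seq) (r : ℕ) (c : Seq → Fin r) {μ : Cardinal.{1}}
    (hμ : μ < #(R omω))
    (h : ¬ Cpy {x | x ∈ R omω ∧ μ < #{b // b ∈ R omω ∧ G.Adj x b ∧ c b = c x}}) :
    ∃ φ : Seq → Seq, (∀ f ∈ R omω, φ f ∈ R omω) ∧
      (∀ f ∈ R omω, ∀ g ∈ R omω, lexlt f g → lexlt (φ f) (φ g)) ∧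
      ∀ f ∈ R omω, ∀ g ∈ R omω, ¬ G.Adj (φ f) (φ g) := by
  set B : Set Seq := {x | x ∈ R omω ∧ μ < #{b // b ∈ R omω ∧ G.Adj x b ∧ c b = c x}} with hB
  have hA : Cpy (Bᶜ ∩ R omω) := by
    rcases ind2 (A := B) (B := Bᶜ) (fun x _ => by rw [Set.union_compl_self]; trivial) with h1 | h1
    · obtain ⟨ψ, h2, h3⟩ := h1
      exact absurd ⟨ψ, fun f hf => (h2 f hf).1, h3⟩ h
    · exact h1
  obtain ⟨i, ψ, hψ, hψlt⟩ := ind_fin r c hA
  have hψR : ∀ f ∈ R omω, ψ f ∈ R omω := fun f hf => (hψ f hf).1.2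
  have hψi : ∀ f ∈ R omω, ∀ g ∈ R omω, ψ f = ψ g → f = g := by
    intro f hf g hg hfg
    by_contra hne
    rcases lexlt_total hne with h1 | h1
    · exact Mn_ne (hψlt f hf g hg h1) hfg
    · exact Mn_ne (hψlt g hg f hf h1) hfg.symm
  obtain ⟨φ, h1, h2, h3⟩ := main_R (G.comap ψ) hμ (fun a ha => by
    have hle : #{b // b ∈ R omω ∧ G.Adj (ψ a) b ∧ c b = c (ψ a)} ≤ μ := by
      by_contra hcon
      exact (hψ a ha).1.1 ⟨hψR a ha, not_le.mp hcon⟩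
    refine le_trans ?_ hle
    refine Cardinal.mk_le_of_injective (f := fun b : {b // b ∈ R omω ∧ (G.comap ψ).Adj a b} =>
      (⟨ψ b.1, hψR _ b.2.1, b.2.2, (hψ b.1 b.2.1).2.trans (hψ a ha).2.symm⟩ :
        {b // b ∈ R omω ∧ G.Adj (ψ a) b ∧ c b = c (ψ a)})) ?_
    intro b b' hbb
    exact Subtype.ext (hψi _ b.2.1 _ b'.2.1
      (congrArg (fun t : {b // b ∈ R omω ∧ G.Adj (ψ a) b ∧ c b = c (ψ a)} => t.1) hbb)))
  exact ⟨fun f => ψ (φ f), fun f hf => hψR _ (h1 f hf),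
    fun f hf g hg hfg => hψlt _ (h1 f hf) _ (h1 g hg) (h2 f hf g hg hfg),
    fun f hf g hg hadj => h3 f hf g hg hadj⟩

end Pool.Agent.H.MP_353193_lc.OC
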